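import Pool.Agent.Helper32.AG.Goals

/-!
MP_0f21ab_al, project AG of helper32, packet PCT.
-/

set_option autoImplicit false

namespace Pool.Agent.Helper70.AG

open Pool.Agent.Helper32.AG
open scoped commutatorElement

universe u

theorem aux {C : Type*} [CommGroup C] (u s z w t : C) :
    u * s * z = w * t ↔ w * s⁻¹ * (u⁻¹ * t) = z := by
  constructor
  · intro h
    have h1 : z = (u * s)⁻¹ * (w * t) := by rw [← h, inv_mul_cancel_left]
    rw [h1, mul_inv]
    ac_rfl
  · intro h
    rw [← h]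
    have h1 : u * s * (w * s⁻¹ * (u⁻¹ * t)) = (u * u⁻¹) * (s * s⁻¹) * (w * t) := by ac_rfl
    rw [h1, mul_inv_cancel, mul_inv_cancel, one_mul, one_mul]

/-- The homomorphism `(u, w) ↦ ⁅w, x⁆ ⁅u⁻¹, y⁆` on `V × V`. -/
def psi {G : Type u} [Group G] (V : Subgroup G) [V.Normal]
    (hab : ∀ a b : V, a * b = b * a) (x y : G) : V × V →* V :=
  MonoidHom.mk' (fun q => (q.2 * (MulAut.conjNormal x q.2)⁻¹) * (q.1⁻¹ * MulAut.conjNormal y q.1))
    (by
      intro q r
      obtain ⟨u, w⟩ := q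
      obtain ⟨u', w'⟩ := r
      have hc : ∀ a b c : V, a * (b * c) = b * (a * c) := fun a b c => by
        rw [← mul_assoc, hab a b, mul_assoc]
      show ((w * w') * (MulAut.conjNormal x (w * w'))⁻¹) *
        ((u * u')⁻¹ * MulAut.conjNormal y (u * u')) =
        ((w * (MulAut.conjNormal x w)⁻¹) * (u⁻¹ * MulAut.conjNormal y u)) *
        ((w' * (MulAut.conjNormal x w')⁻¹) * (u'⁻¹ * MulAut.conjNormal y u'))
      rw [map_mul, map_mul, mul_inv_rev, mul_inv_rev]
      generalize MulAut.conjNormal x w = a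
      generalize MulAut.conjNormal x w' = a'
      generalize MulAut.conjNormal y u = b
      generalize MulAut.conjNormal y u' = b'
      let _ : CommGroup V := { (inferInstance : Group V) with mul_comm := hab }
      have key : ∀ (w w' a a' u u' b b' : V), ((w * w') * (a'⁻¹ * a⁻¹)) * ((u'⁻¹ * u⁻¹) * (b * b')) =
        ((w * a⁻¹) * (u⁻¹ * b)) * ((w' * a'⁻¹) * (u'⁻¹ * b')) := by
        intro w w' a a' u u' b b'
        simp only [mul_assoc, hc, hab]
      exact key w w' a a' u u' b b')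

theorem psi_coe {G : Type u} [Group G] (V : Subgroup G) [V.Normal]
    (hab : ∀ a b : V, a * b = b * a) (x y : G) (q : V × V) :
    ((psi V hab x y q : V) : G) = ⁅(q.2 : G), x⁆ * ⁅((q.1⁻¹ : V) : G), y⁆ := by
  show (((q.2 * (MulAut.conjNormal x q.2)⁻¹) * (q.1⁻¹ * MulAut.conjNormal y q.1) : V) : G) = _
  rw [commutatorElement_def, commutatorElement_def]
  push_cast
  rw [MulAut.conjNormal_apply, MulAut.conjNormal_apply]
  group

theorem PCT : PctStmt.{u} := by
  intro G _ _ V _ hV x y hxy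
  have hab : ∀ a b : V, a * b = b * a := fun a b => Subtype.ext (hV a a.2 b b.2)
  have hW : Wc V x y ≤ V := by
    refine (Subgroup.closure_le V).2 ?_
    rintro g ⟨v, hv, h | h⟩
    · rw [h, commutatorElement_def]
      have h1 : v * x * v⁻¹ * x⁻¹ = v * (x * v⁻¹ * x⁻¹) := by group
      rw [h1]
      exact V.mul_mem hv (Subgroup.Normal.conj_mem inferInstance _ (V.inv_mem hv) x)
    · rw [h, commutatorElement_def]
      have h1 : v * y * v⁻¹ * y⁻¹ = v * (y * v⁻¹ * y⁻¹) := by group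
      rw [h1]
      exact V.mul_mem hv (Subgroup.Normal.conj_mem inferInstance _ (V.inv_mem hv) y)
  -- the image
  have himg : (psi V hab x y).range.map V.subtype = Wc V x y := by
    apply le_antisymm
    · rintro _ ⟨_, ⟨q, rfl⟩, rfl⟩
      show ((psi V hab x y q : V) : G) ∈ Wc V x y
      rw [psi_coe]
      refine (Wc V x y).mul_mem (Subgroup.subset_closure ⟨_, q.2.2, Or.inl rfl⟩)
        (Subgroup.subset_closure ⟨_, (q.1⁻¹).2, Or.inr rfl⟩)
    · refine (Subgroup.closure_le _).2 ?_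
      rintro g ⟨v, hv, h | h⟩
      · refine ⟨psi V hab x y (1, ⟨v, hv⟩), ⟨_, rfl⟩, ?_⟩
        show ((psi V hab x y (1, ⟨v, hv⟩) : V) : G) = g
        rw [psi_coe, h]
        simp
      · refine ⟨psi V hab x y (⟨v, hv⟩⁻¹, 1), ⟨_, rfl⟩, ?_⟩
        show ((psi V hab x y (⟨v, hv⟩⁻¹, 1) : V) : G) = g
        rw [psi_coe, h]
        simp
  have hcard : Nat.card (psi V hab x y).range = Nat.card (Wc V x y) := by
    rw [← himg]
    exact Nat.card_congr
      (Subgroup.equivMapOfInjective _ V.subtype V.subtype_injective).toEquiv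
  -- the equation
  obtain ⟨z, hz⟩ : ∃ z : V, (z : G) = ⁅x, y⁆ := ⟨⟨_, hW hxy⟩, rfl⟩
  have heq : ∀ u w : V, Commute (x * (u : G)) (y * (w : G)) ↔
      psi V hab x y (MulAut.conjNormal x u, MulAut.conjNormal y w) = z := by
    intro u w
    obtain ⟨u', hu'⟩ : ∃ u' : V, u' = MulAut.conjNormal x u := ⟨_, rfl⟩
    obtain ⟨w', hw'⟩ : ∃ w' : V, w' = MulAut.conjNormal y w := ⟨_, rfl⟩
    have h1 : x * (u : G) = (u' : G) * x := by
      rw [hu', MulAut.conjNormal_apply]; group
    have h2 : y * (w : G) = (w' : G) * y := by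
      rw [hw', MulAut.conjNormal_apply]; group
    rw [← hu', ← hw', h1, h2, Subtype.ext_iff, psi_coe, hz, commute_iff_eq]
    obtain ⟨s, hs⟩ : ∃ s : V, (s : G) = x * (w' : G) * x⁻¹ :=
      ⟨MulAut.conjNormal x w', MulAut.conjNormal_apply _ _⟩
    obtain ⟨t, ht⟩ : ∃ t : V, (t : G) = y * (u' : G) * y⁻¹ :=
      ⟨MulAut.conjNormal y u', MulAut.conjNormal_apply _ _⟩
    have e1 : (u' : G) * x * ((w' : G) * y) = (u' * s * z : V) * (y * x) := by
      rw [Subgroup.coe_mul, Subgroup.coe_mul, hs, hz, commutatorElement_def]; group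
    have e2 : (w' : G) * y * ((u' : G) * x) = (w' * t : V) * (y * x) := by
      rw [Subgroup.coe_mul, ht]; group
    have e3 : ⁅((w' : V) : G), x⁆ * ⁅((u'⁻¹ : V) : G), y⁆ = ((w' * s⁻¹) * (u'⁻¹ * t) : V) := by
      rw [Subgroup.coe_mul, Subgroup.coe_mul, Subgroup.coe_mul, Subgroup.coe_inv, Subgroup.coe_inv,
        hs, ht, commutatorElement_def, commutatorElement_def]
      group
    show (u' : G) * x * ((w' : G) * y) = (w' : G) * y * ((u' : G) * x) ↔
      ⁅((w' : V) : G), x⁆ * ⁅((u'⁻¹ : V) : G), y⁆ = ⁅x, y⁆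
    rw [e1, e2, e3, ← hz, mul_left_inj, ← Subtype.ext_iff, ← Subtype.ext_iff]
    exact @aux V { (inferInstance : Group V) with mul_comm := hab } u' s z w' t
  have hS : Nat.card {q : V × V // Commute (x * (q.1 : G)) (y * (q.2 : G))} =
      Nat.card {q : V × V // psi V hab x y q = z} := by
    refine Nat.card_congr (Equiv.subtypeEquiv
      (Equiv.prodCongr (MulAut.conjNormal x).toEquiv (MulAut.conjNormal y).toEquiv) ?_)
    rintro ⟨u, w⟩
    exact heq u w
  have hzr : z ∈ (psi V hab x y).range := by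
    have h1 : (z : G) ∈ (psi V hab x y).range.map V.subtype := by
      rw [himg, hz]; exact hxy
    obtain ⟨z', h2, h3⟩ := h1
    have h4 : z' = z := Subtype.ext h3
    rwa [h4] at h2
  obtain ⟨q0, hq0⟩ := hzr
  have hT : Nat.card {q : V × V // psi V hab x y q = z} = Nat.card (psi V hab x y).ker := by
    refine Nat.card_congr
      { toFun := fun q => ⟨q0⁻¹ * q.1, ?_⟩
        invFun := fun q => ⟨q0 * q.1, ?_⟩
        left_inv := fun q => Subtype.ext (by simp)
        right_inv := fun q => Subtype.ext (by simp) }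
    · rw [MonoidHom.mem_ker, map_mul, map_inv, hq0, q.2, inv_mul_cancel]
    · rw [map_mul, hq0, q.2, mul_one]
  rw [hS, hT, ← hcard, ← Subgroup.index_ker, Subgroup.card_mul_index, Nat.card_prod, sq]

end Pool.Agent.Helper70.AG
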